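import Pool.Agent.Helper187.CC.Stmts

set_option autoImplicit false
open Finset

namespace H187CC

lemma F_improper' {A : Type} (t : ℝ) (al be : Option A) (w : List A)
    (h : ¬ Proper (al.toList ++ w ++ be.toList)) : F t al be w = 0 := by
  by_cases hw : w = []
  · subst hw
    rw [F_nil, if_pos]
    cases al with
    | none =>
      exfalso; apply h
      cases be with
      | none => simp [Proper]
      | some b => simp [Proper]
    | some a =>
      cases be with
      | none => exfalso; apply h; simp [Proper]
      | some b =>
        have : a = b := by
          by_contra hab
          apply h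
          simp [Proper, hab]
        exact ⟨a, rfl, by rw [this]⟩
  · exact F_improper t al be w hw h

lemma FA_all (hFA : TaskFA) {A : Type} (t : ℝ) (h0 : 0 < t) (h1 : t < 1) (al be : Option A)
    (hab : ¬ (∃ a, al = some a ∧ be = some a)) (w : List A) (hw : w ≠ []) :
    (1 - t ^ w.length) * F t al be w
      = vspl (fun u c v => t ^ u.length * (F t al (some c) u * F t (some c) be v)) w := by
  by_cases hp : Proper (al.toList ++ w ++ be.toList)
  · exact hFA A t h0 h1 al be hab w hw hp
  · rw [F_improper t al be w hw hp, mul_zero]
    symm
    have : vspl (fun u c v => t ^ u.length * (F t al (some c) u * F t (some c) be v)) w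
        = vspl (fun _ _ _ => (0 : ℝ) * 0) w := by
      apply vspl_congr
      intro u c v hwe
      by_cases h1 : Proper (al.toList ++ u ++ [c])
      · by_cases h2 : Proper (c :: (v ++ be.toList))
        · exfalso
          apply hp
          have := Proper_glue h1 h2
          rw [hwe]
          simpa using this
        · rw [F_improper' t (some c) be v (by simpa using h2)]
          ring
      · rw [F_improper' t al (some c) u (by simpa using h1)]
        ring
    rw [this, vspl_mul, zero_mul]

lemma sum_Icc_range (f : ℕ → ℝ) (a b : ℕ) :
    ∑ c ∈ Icc a b, f c = ∑ j ∈ range (b + 1 - a), f (a + j) := by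
  have : Icc a b = Ico a (b + 1) := by
    ext c; simp [Nat.lt_succ_iff]
  rw [this, Finset.sum_Ico_eq_sum_range]

theorem taskRing : TaskRing := by
  intro hFA A t h0 h1 x
  refine ⟨?_, ?_, ?_⟩
  · ext a b hab
    rcases Nat.eq_or_lt_of_le hab with h | h
    · subst h
      rw [IncidenceAlgebra.sub_apply, IncidenceAlgebra.mul_apply]
      simp [tau, elR, kap, elK]
    · have key := FA_all hFA t h0 h1 (some (x a)) none (by simp) (seg x (a + 1) (b - a))
        (by
          intro h2
          have := congrArg List.length h2
          simp at this
          omega)
      rw [vspl_seg, seg_length] at key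
      rw [IncidenceAlgebra.sub_apply, IncidenceAlgebra.mul_apply, sum_Icc_range]
      have e : b + 1 - a = (b - a) + 1 := by omega
      rw [e, Finset.sum_range_succ']
      have hz : (kap t (elK t x)) a (a + 0) * (elR t x) (a + 0) b = 0 := by
        simp [kap, elK]
      rw [hz, add_zero]
      have hs : ∑ k ∈ range (b - a), (kap t (elK t x)) a (a + (k + 1)) * (elR t x) (a + (k + 1)) b
          = ∑ j ∈ range (b - a), t ^ (seg x (a + 1) j).length *
              (F t (some (x a)) (some (x (a + 1 + j))) (seg x (a + 1) j) *
                F t (some (x (a + 1 + j))) none (seg x (a + 1 + j + 1) (b - a - 1 - j))) := by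
        apply Finset.sum_congr rfl
        intro j hj
        rw [Finset.mem_range] at hj
        have e1 : a + (j + 1) - a - 1 = j := by omega
        have e2 : a + (j + 1) = a + 1 + j := by omega
        have e3 : b - (a + 1 + j) = b - a - 1 - j := by omega
        have e4 : a + 1 + j - a - 1 = j := by omega
        have l1 : a < a + 1 + j := by omega
        have l2 : a + 1 + j ≤ b := by omega
        rw [e2]
        simp only [kap, elK, elR, IncidenceAlgebra.coe_mk, l1, l2, if_true, e3, e4, seg_length]
        ring
      rw [hs, ← key]
      simp only [tau, elR, IncidenceAlgebra.coe_mk, h.le, if_true]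
      ring
  · ext a b hab
    rw [IncidenceAlgebra.mul_apply, sum_Icc_range]
    have e : b + 1 - a = (b - a) + 1 := by omega
    rw [e, Finset.sum_range_succ]
    rcases Nat.eq_or_lt_of_le hab with h | h
    · subst h
      simp [tau, elL, elK]
    · have key := FA_all hFA t h0 h1 none (some (x b)) (by simp) (seg x a (b - a))
        (by
          intro h2
          have := congrArg List.length h2
          simp at this
          omega)
      rw [vspl_seg, seg_length] at key
      have hb : a + (b - a) = b := by omega
      rw [hb]
      have hlast : (tau t (elL t x)) a b * (1 + elK t x : IA) b b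
          = t ^ (b - a) * F t none (some (x b)) (seg x a (b - a)) := by
        simp [tau, elL, elK, IncidenceAlgebra.add_apply, hab]
      have hs : ∑ k ∈ range (b - a), (tau t (elL t x)) a (a + k) * (1 + elK t x : IA) (a + k) b
          = ∑ j ∈ range (b - a), t ^ (seg x a j).length *
              (F t none (some (x (a + j))) (seg x a j) *
                F t (some (x (a + j))) (some (x b)) (seg x (a + j + 1) (b - a - 1 - j))) := by
        apply Finset.sum_congr rfl
        intro j hj
        rw [Finset.mem_range] at hj
        have l1 : a + j < b := by omega
        have l2 : a ≤ a + j := by omega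
        have l3 : a + j ≠ b := by omega
        have e1 : a + j - a = j := by omega
        have e3 : b - (a + j) - 1 = b - a - 1 - j := by omega
        have hone : (1 : IA) (a + j) b = 0 := by
          rw [IncidenceAlgebra.one_apply, if_neg l3]
        rw [IncidenceAlgebra.add_apply, hone, zero_add]
        simp only [tau, elL, elK, IncidenceAlgebra.coe_mk, l1, l2, if_true, e1, e3, seg_length]
        ring
      rw [hlast, hs, ← key]
      simp only [elL, IncidenceAlgebra.coe_mk, hab, if_true]
      ring
  · ext a b hab
    rw [IncidenceAlgebra.mul_apply, sum_Icc_range]
    have key := FA_all hFA t h0 h1 none none (by simp) (seg x a (b + 1 - a))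
        (by
          intro h2
          have := congrArg List.length h2
          simp at this
          omega)
    rw [vspl_seg, seg_length] at key
    have hs : ∑ k ∈ range (b + 1 - a), (tau t (elL t x)) a (a + k) * (elR t x) (a + k) b
          = ∑ j ∈ range (b + 1 - a), t ^ (seg x a j).length *
              (F t none (some (x (a + j))) (seg x a j) *
                F t (some (x (a + j))) none (seg x (a + j + 1) (b + 1 - a - 1 - j))) := by
        apply Finset.sum_congr rfl
        intro j hj
        rw [Finset.mem_range] at hj
        have l1 : a + j ≤ b := by omega
        have l2 : a ≤ a + j := by omega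
        have e1 : a + j - a = j := by omega
        have e3 : b - (a + j) = b + 1 - a - 1 - j := by omega
        simp only [tau, elL, elR, IncidenceAlgebra.coe_mk, l1, l2, if_true, e1, e3, seg_length]
        ring
    rw [hs, ← key]
    simp only [el, psi, phi, IncidenceAlgebra.coe_mk, hab, if_true, seg_length]

end H187CC

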